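import Pool.Agent.Helper19.HV.XS

set_option autoImplicit false

open Polynomial

namespace Pool.Agent.Helper19.HV

noncomputable section

open PL

private theorem y3b_ext {F : Type} [Field F] {N : Type} [AddCommGroup N] [Module ℚ N]
    {f g : V F →ₗ[ℚ] N} (h : ∀ c : F, f (lg c) = g (lg c)) : f = g := by
  apply LinearMap.ext_on (span_lg (F := F))
  rintro _ ⟨c, rfl⟩
  exact h c

theorem mY3B {F : Type} [Field F] {cV : V F →ₗ[ℚ] V (RatFunc F)}
    {lc : V (RatFunc F) →ₗ[ℚ] V F} {od : V (RatFunc F) →ₗ[ℚ] (F →₀ ℚ)} (hs : Spl cV lc od)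
    (hEX2 : ∀ {N : Type} [AddCommGroup N] [Module ℚ N] (ψ : P1 (RatFunc F) → N), Kil 2 ψ →
      (∀ c, ψ (cst c) = 0) → ∃ A : V (RatFunc F) →ₗ[ℚ] V (RatFunc F) →ₗ[ℚ] N, Al2 A ∧
        (∀ (c : F) v, A (lg (RatFunc.C c)) v = 0) ∧ ∀ x, ψ x = A (cl1 x) (cl x))
    (hSPN : ∀ T : V (RatFunc F) →ₗ[ℚ] V (RatFunc F) →ₗ[ℚ] V (RatFunc F) →ₗ[ℚ] ℚ,
      (∀ v w, T v v w = 0) → (∀ (c : F) v w, T (lg (RatFunc.C c)) v w = 0) →
      (∀ (c : F) v w, T v w (lg (RatFunc.C c)) = 0) →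
      (∀ x : P1 (RatFunc F), T (cl1 x) (cl x) (cl x) = 0) → Al3 T)
    {L : P1 (RatFunc F) → (V (RatFunc F) →ₗ[ℚ] V (RatFunc F) →ₗ[ℚ] ℚ)} (hL : Ls L)
    (hcl : ∀ x k, L x (cl x) k = 0)
    (huu : ∀ x (u w : F), L x (lg (RatFunc.C u)) (lg (RatFunc.C w)) = 0) :
    ∃ χ : F4 F, Al4 χ ∧
      (∀ (a b c : F) k, χ (lg (RatFunc.C a)) (lg (RatFunc.C b)) (lg (RatFunc.C c)) k = 0) ∧
      ∀ x k (u : F), L x k (lg (RatFunc.C u)) = χ (cl1 x) (cl x) k (lg (RatFunc.C u)) := by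
  have hanti : ∀ x a b, L x a b = - L x b a := by
    intro x a b
    have h := hL.alt x (a + b)
    have h1 := hL.alt x a
    have h2 := hL.alt x b
    simp only [map_add, LinearMap.add_apply, h1, h2] at h
    linarith
  let Φ : (V (RatFunc F) →ₗ[ℚ] V (RatFunc F) →ₗ[ℚ] ℚ) →ₗ[ℚ]
      (V (RatFunc F) →ₗ[ℚ] V F →ₗ[ℚ] ℚ) :=
    { toFun := fun f => (LinearMap.lcomp ℚ ℚ cV).comp f
      map_add' := fun f g => LinearMap.comp_add _ _ _
      map_smul' := fun c f => by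
        ext k u
        simp }
  have hΦ : ∀ f k u, Φ f k u = f k (cV u) := fun f k u => rfl
  -- the functional with values in `VK → V F → ℚ`
  obtain ⟨A, hA2, hAc, hA⟩ := hEX2 (N := V (RatFunc F) →ₗ[ℚ] V F →ₗ[ℚ] ℚ)
    (fun x => Φ (L x)) (by
      intro α hα
      have h2 := Finsupp.apply_linearCombination ℚ Φ L α
      rw [hL.kil α hα, map_zero] at h2
      exact h2.symm) (by
      intro c
      apply LinearMap.ext
      intro k
      apply y3b_ext
      intro u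
      rw [hΦ, hs.cV_lg, hanti, hL.cst, neg_zero]
      rfl)
  have hA' : ∀ x k u, L x k (cV u) = A (cl1 x) (cl x) k u := by
    intro x k u
    rw [← hA, hΦ]
  -- the projection to the part orthogonal to the constants
  let η : V (RatFunc F) →ₗ[ℚ] V (RatFunc F) := (Finsupp.linearCombination ℚ E).comp od
  have hηc : ∀ c : F, η (lg (RatFunc.C c)) = 0 := by
    intro c
    change Finsupp.linearCombination ℚ E (od (lg (RatFunc.C c))) = 0
    rw [hs.od_C, map_zero]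
  have hdec : ∀ v, v = cV (lc v) + η v := hs.dec
  have hcc : ∀ x (a b : V F), L x (cV a) (cV b) = 0 := by
    intro x a b
    have h1 : (Φ (L x)).comp cV = 0 := by
      apply y3b_ext
      intro c
      apply y3b_ext
      intro d
      rw [LinearMap.comp_apply, hΦ, hs.cV_lg, hs.cV_lg, huu]
      rfl
    exact LinearMap.congr_fun (LinearMap.congr_fun h1 a) b
  have hT : ∀ x k u, L x k (cV u) = A (cl1 x) (cl x) (η k) u := by
    intro x k u
    rw [← hA']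
    conv_lhs => rw [hdec k]
    rw [map_add, LinearMap.add_apply, hcc, zero_add]
  have hA2' : ∀ v, A v v = 0 := hA2
  have hAl3 : ∀ u, (∀ v w, A v v (η w) u = 0) ∧ ∀ v w, A v w (η w) u = 0 := by
    intro u
    obtain ⟨T, hTT⟩ := mk3 (fun a b k : V (RatFunc F) => A a b (η k) u)
      (fun _ _ => ⟨fun _ _ => by simp, fun _ _ => by simp⟩)
      (fun _ _ => ⟨fun _ _ => by simp, fun _ _ => by simp⟩)
      (fun _ _ => ⟨fun _ _ => by simp, fun _ _ => by simp⟩)
    have h1 := hSPN T (fun v w => by rw [hTT, hA2']; rfl)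
      (fun c v w => by rw [hTT, hAc]; rfl)
      (fun c v w => by rw [hTT, hηc, map_zero]; rfl)
      (fun x => by rw [hTT, ← hT, hcl])
    constructor
    · intro v w
      rw [← hTT]
      exact h1.1 v w
    · intro v w
      rw [← hTT]
      exact h1.2 v w
  have hc1 : ∀ (c : F) v w u, A (lg (RatFunc.C c)) v w u = 0 := by
    intro c v w u
    rw [hAc]
    rfl
  obtain ⟨χ, hχ⟩ := mk4 (fun v1 v2 v3 v4 : V (RatFunc F) =>
      A v1 v2 (η v3) (lc v4) - A v1 v2 (η v4) (lc v3) + A v1 v3 (η v4) (lc v2)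
        - A v2 v3 (η v4) (lc v1))
    (fun _ _ _ => ⟨fun _ _ => by simp; ring, fun _ _ => by simp; ring⟩)
    (fun _ _ _ => ⟨fun _ _ => by simp; ring, fun _ _ => by simp; ring⟩)
    (fun _ _ _ => ⟨fun _ _ => by simp; ring, fun _ _ => by simp; ring⟩)
    (fun _ _ _ => ⟨fun _ _ => by simp; ring, fun _ _ => by simp; ring⟩)
  refine ⟨χ, ⟨?_, ?_, ?_⟩, ?_, ?_⟩
  · intro v w z
    rw [hχ, (hAl3 _).1, (hAl3 _).1]
    ring
  · intro v w z
    rw [hχ, (hAl3 _).2, (hAl3 _).1]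
    ring
  · intro v w z
    rw [hχ, (hAl3 _).2, (hAl3 _).2]
    ring
  · intro a b c k
    rw [hχ, hc1, hc1, hc1, hc1]
    ring
  · intro x k u
    rw [hχ, hηc, map_zero, map_zero, map_zero, hs.lc_C, ← hT, hs.cV_lg]
    simp

end

end Pool.Agent.Helper19.HV
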